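import Mathlib
import Pool.Agent.Zk45.RS.Den3
import Pool.Agent.Zk45.RS.Stm2

/-!
Density theorem for infinite invariant sets of sequences with `2 z (n + 1) = 3 z n`.
-/

set_option autoImplicit false
set_option linter.unusedSectionVars false

open MeasureTheory Filter Topology Set

namespace Pool.Agent.Zk85.RS45

open Pool.Agent.H705R2 Pool.Agent.W765.Sta Pool.Agent.Zk45.Syn
open Pool.Agent.Zk45.RS (S_STA S_SETS sh continuous_sh sh_iter fin_torsion)
open Pool.Agent.H847R3.XpXq (TT)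

variable {W : Type} [TopologicalSpace W] [DiscreteTopology W] [Finite W]

/-- the states at a distance at least `m` from the boundary -/
def EZ (s : ℕ) (Z : ℕ → Set (ℤ → Circ)) (ω : ℕ → ℕ → W) (m : ℕ) : Set (St W) :=
  {a | ∃ k j : ℕ, j + m ≤ k ∧ ∃ z ∈ Z k, a = (fun n => s ^ j • z n, fun i => ω k (i + j))}

/-- the limits -/
def YZ (s : ℕ) (Z : ℕ → Set (ℤ → Circ)) (ω : ℕ → ℕ → W) : Set (St W) :=
  ⋂ m, closure (EZ s Z ω m)

variable {s : ℕ} {Z : ℕ → Set (ℤ → Circ)} {ω : ℕ → ℕ → W}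

lemma EZ_anti {m m' : ℕ} (h : m ≤ m') : EZ s Z ω m' ⊆ EZ s Z ω m := by
  rintro a ⟨k, j, h1, z, hz, rfl⟩
  exact ⟨k, j, by omega, z, hz, rfl⟩

lemma isClosed_YZ : IsClosed (YZ s Z ω) := isClosed_iInter fun _ => isClosed_closure

lemma YZ_subset {C : Set (St W)} (hC : IsClosed C) {m : ℕ} (h : EZ s Z ω m ⊆ C) : YZ s Z ω ⊆ C :=
  (iInter_subset _ m).trans (closure_minimal h hC)

lemma YZ_inter {C : Set (St W)} (hC : IsClosed C) (h : ∀ m, (EZ s Z ω m ∩ C).Nonempty) :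
    (YZ s Z ω ∩ C).Nonempty := by
  have h1 : (⋂ m, closure (EZ s Z ω m ∩ C)).Nonempty := by
    apply IsCompact.nonempty_iInter_of_sequence_nonempty_isCompact_isClosed
    · intro m
      exact closure_mono (inter_subset_inter_left _ (EZ_anti (Nat.le_succ m)))
    · intro m
      exact (h m).closure
    · exact isClosed_closure.isCompact
    · intro m
      exact isClosed_closure
  obtain ⟨a, ha⟩ := h1
  rw [mem_iInter] at ha
  refine ⟨a, ?_, ?_⟩
  · rw [YZ, mem_iInter]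
    exact fun m => closure_mono inter_subset_left (ha m)
  · exact closure_minimal inter_subset_right hC (ha 0)

lemma YZ_nonempty (hne : ∀ k, (Z k).Nonempty) : (YZ s Z ω).Nonempty := by
  have h := YZ_inter (s := s) (Z := Z) (ω := ω) (C := univ) isClosed_univ (fun m => by
    obtain ⟨z, hz⟩ := hne m
    exact ⟨_, ⟨m, 0, by omega, z, hz, rfl⟩, mem_univ _⟩)
  exact h.mono inter_subset_left

lemma YZ_map {φ : St W → St W} (hφ : Continuous φ)
    (h : ∀ m, ∀ a ∈ EZ s Z ω (m + 1), φ a ∈ EZ s Z ω m)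
    {a : St W} (ha : a ∈ YZ s Z ω) : φ a ∈ YZ s Z ω := by
  rw [YZ, mem_iInter] at ha ⊢
  intro m
  exact map_mem_closure hφ (ha (m + 1)) (h m)

lemma tp_mem (hZp : ∀ k, ∀ z ∈ Z k, (fun n => z (n + 1)) ∈ Z k) {a : St W} (ha : a ∈ YZ s Z ω) :
    tp a ∈ YZ s Z ω := by
  refine YZ_map (by unfold tp; fun_prop) ?_ ha
  rintro m a ⟨k, j, h1, z, hz, rfl⟩
  exact ⟨k, j, by omega, fun n => z (n + 1), hZp k z hz, rfl⟩

lemma tm_mem (hZm : ∀ k, ∀ z ∈ Z k, (fun n => z (n - 1)) ∈ Z k) {a : St W} (ha : a ∈ YZ s Z ω) :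
    tm a ∈ YZ s Z ω := by
  refine YZ_map (by unfold tm; fun_prop) ?_ ha
  rintro m a ⟨k, j, h1, z, hz, rfl⟩
  exact ⟨k, j, by omega, fun n => z (n - 1), hZm k z hz, rfl⟩

lemma sg_mem {a : St W} (ha : a ∈ YZ s Z ω) : sg s a ∈ YZ s Z ω := by
  refine YZ_map (by unfold sg; fun_prop) ?_ ha
  rintro m a ⟨k, j, h1, z, hz, rfl⟩
  refine ⟨k, j + 1, by omega, z, hz, ?_⟩
  unfold sg
  refine Prod.ext (funext fun n => ?_) (funext fun i => ?_)
  · simp only
    rw [pow_succ', mul_nsmul']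
  · simp only
    congr 1
    ring

lemma rel (hZr : ∀ k, ∀ z ∈ Z k, ∀ n, 2 • z (n + 1) = 3 • z n) {a : St W} (ha : a ∈ YZ s Z ω)
    (n : ℤ) : 2 • a.1 (n + 1) = 3 • a.1 n := by
  have hC : IsClosed {a : St W | 2 • a.1 (n + 1) = 3 • a.1 n} :=
    isClosed_eq (by fun_prop) (by fun_prop)
  refine YZ_subset (m := 0) hC ?_ ha
  rintro a ⟨k, j, h1, z, hz, rfl⟩
  show 2 • (s ^ j • z (n + 1)) = 3 • (s ^ j • z n)
  rw [nsmul_left_comm, hZr k z hz n, nsmul_left_comm]

lemma rel_iter (hZr : ∀ k, ∀ z ∈ Z k, ∀ n, 2 • z (n + 1) = 3 • z n) {a : St W}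
    (ha : a ∈ YZ s Z ω) (n : ℤ) (i : ℕ) : (2 ^ i) • a.1 (n + i) = (3 ^ i) • a.1 n := by
  induction i with
  | zero => simp
  | succ i ih =>
    have h1 := rel hZr ha (n + i)
    rw [show n + ((i + 1 : ℕ) : ℤ) = n + i + 1 by push_cast; ring]
    calc (2 ^ (i + 1)) • a.1 (n + i + 1) = (2 ^ i) • (2 • a.1 (n + i + 1)) := by
          rw [pow_succ, mul_nsmul']
      _ = (2 ^ i) • (3 • a.1 (n + i)) := by rw [h1]
      _ = 3 • ((2 ^ i) • a.1 (n + i)) := by rw [nsmul_left_comm]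
      _ = 3 • ((3 ^ i) • a.1 n) := by rw [ih]
      _ = (3 ^ (i + 1)) • a.1 n := by rw [pow_succ', mul_nsmul']

/-- invariance under all shifts -/
lemma shift_mem (hZp : ∀ k, ∀ z ∈ Z k, (fun n => z (n + 1)) ∈ Z k)
    (hZm : ∀ k, ∀ z ∈ Z k, (fun n => z (n - 1)) ∈ Z k) (k : ℕ) {z : ℤ → Circ} (hz : z ∈ Z k)
    (t : ℤ) : (fun n => z (n + t)) ∈ Z k := by
  induction t using Int.induction_on with
  | zero => simpa using hz
  | succ i ih =>
    have h := hZp k _ ih
    have e : (fun n : ℤ => z (n + ((i : ℤ) + 1))) = fun n => z (n + 1 + i) := by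
      funext n; congr 1; ring
    rw [e]; exact h
  | pred i ih =>
    have h := hZm k _ ih
    have e : (fun n : ℤ => z (n + (-(i : ℤ) - 1))) = fun n => z (n - 1 + -(i : ℤ)) := by
      funext n; congr 1; ring
    rw [e]; exact h

/-- the letters are avoided -/
lemma avoid (hZp : ∀ k, ∀ z ∈ Z k, (fun n => z (n + 1)) ∈ Z k)
    (hZm : ∀ k, ∀ z ∈ Z k, (fun n => z (n - 1)) ∈ Z k) {U : W → Set Circ} (hU : ∀ w, IsOpen (U w))
    (hbad : ∀ k j : ℕ, j ≤ k → ∀ z ∈ Z k, s ^ j • z 0 ∉ U (ω k j))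
    {a : St W} (ha : a ∈ YZ s Z ω) (n : ℤ) : a.1 n ∉ U (a.2 0) := by
  have hO : IsOpen {a : St W | a.1 n ∈ U (a.2 0)} := by
    have : {a : St W | a.1 n ∈ U (a.2 0)} = ⋃ w : W, {a : St W | a.1 n ∈ U w} ∩ {a : St W | a.2 0 = w} := by
      ext a
      simp
    rw [this]
    refine isOpen_iUnion fun w => ?_
    refine ((hU w).preimage (by fun_prop)).inter ?_
    exact (isOpen_discrete {w}).preimage (f := fun a : St W => a.2 0) (by fun_prop)
  have hC : IsClosed {a : St W | a.1 n ∉ U (a.2 0)} := hO.isClosed_compl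
  refine YZ_subset (m := 0) hC ?_ ha
  rintro a ⟨k, j, h1, z, hz, rfl⟩
  show s ^ j • z n ∉ U (ω k (0 + j))
  have h2 := hbad k j (by omega) _ (shift_mem hZp hZm k hz n)
  rw [zero_add] at h2 ⊢
  exact h2

/-- the random set -/
def FibZ (s : ℕ) (Z : ℕ → Set (ℤ → Circ)) (ω : ℕ → ℕ → W) (c : ℕ → W) : Set Circ :=
  (fun a : St W => a.1 0) '' (YZ s Z ω ∩ {a | a.2 = c})

lemma isClosed_Fib (c : ℕ → W) : IsClosed (FibZ s Z ω c) := by
  have h : IsClosed {a : St W | a.2 = c} := isClosed_eq continuous_snd continuous_const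
  exact ((isClosed_YZ.inter h).isCompact.image (by fun_prop)).isClosed

lemma hit_Fib [MeasurableSpace (ℕ → W)] [BorelSpace (ℕ → W)] : Hit (FibZ s Z ω) := by
  refine hit_of_closed fun C hC => ?_
  have h : {c | (FibZ s Z ω c ∩ C).Nonempty} = (fun a : St W => a.2) '' (YZ s Z ω ∩ {a | a.1 0 ∈ C}) := by
    ext c
    constructor
    · rintro ⟨x, ⟨a, ⟨ha, ha2⟩, rfl⟩, hx⟩
      exact ⟨a, ⟨ha, hx⟩, ha2⟩
    · rintro ⟨a, ⟨ha, hx⟩, hac⟩
      exact ⟨a.1 0, ⟨a, ⟨ha, hac⟩, rfl⟩, hx⟩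
  rw [h]
  have h2 : IsClosed {a : St W | a.1 0 ∈ C} := hC.preimage (f := fun a : St W => a.1 0) (by fun_prop)
  exact ((isClosed_YZ.inter h2).isCompact.image continuous_snd).isClosed.measurableSet

lemma Fib_equi (hZp : ∀ k, ∀ z ∈ Z k, (fun n => z (n + 1)) ∈ Z k)
    (hZm : ∀ k, ∀ z ∈ Z k, (fun n => z (n - 1)) ∈ Z k)
    (hZr : ∀ k, ∀ z ∈ Z k, ∀ n, 2 • z (n + 1) = 3 • z n) {c : ℕ} (hs : s = 2 * c ∨ s = 3 * c)
    (u : ℕ → W) (x : Circ) (hx : x ∈ FibZ s Z ω u) :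
    (3 * c) • x ∈ FibZ s Z ω (sh u) ∧ (2 * c) • x ∈ FibZ s Z ω (sh u) := by
  obtain ⟨a, ⟨ha, hau⟩, rfl⟩ := hx
  have hau' : a.2 = u := hau
  simp only
  rcases hs with hs | hs
  · constructor
    · refine ⟨sg s (tp a), ⟨sg_mem (tp_mem hZp ha), ?_⟩, ?_⟩
      · show (fun i => a.2 (i + 1)) = sh u
        rw [hau']; rfl
      · have h1 := rel hZr ha 0
        rw [zero_add] at h1
        show s • a.1 (0 + 1) = _
        rw [zero_add, hs, mul_comm 2 c, mul_nsmul', h1, ← mul_nsmul', mul_comm]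
    · refine ⟨sg s a, ⟨sg_mem ha, ?_⟩, by show s • a.1 0 = _; rw [hs]⟩
      show (fun i => a.2 (i + 1)) = sh u
      rw [hau']; rfl
  · constructor
    · refine ⟨sg s a, ⟨sg_mem ha, ?_⟩, by show s • a.1 0 = _; rw [hs]⟩
      show (fun i => a.2 (i + 1)) = sh u
      rw [hau']; rfl
    · refine ⟨sg s (tm a), ⟨sg_mem (tm_mem hZm ha), ?_⟩, ?_⟩
      · show (fun i => a.2 (i + 1)) = sh u
        rw [hau']; rfl
      · have h1 := rel hZr ha (-1)
        rw [neg_add_cancel] at h1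
        show s • a.1 (0 - 1) = _
        rw [zero_sub, hs, mul_comm 3 c, mul_nsmul', ← h1, ← mul_nsmul', mul_comm]

lemma sg_iter2 {a : St W} (ha : a ∈ YZ s Z ω) (M : ℕ) : ∃ a' ∈ YZ s Z ω,
    (∀ n, a'.1 n = (s ^ M) • a.1 n) ∧ a'.2 = fun i => a.2 (i + M) := by
  induction M with
  | zero => exact ⟨a, ha, fun n => by simp, rfl⟩
  | succ M ih =>
    obtain ⟨a', h1, h2, h3⟩ := ih
    refine ⟨sg s a', sg_mem h1, fun n => ?_, ?_⟩
    · show s • a'.1 n = _
      rw [h2, pow_succ', mul_nsmul']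
    · show (fun i => a'.2 (i + 1)) = _
      rw [h3]
      funext i
      show a.2 (i + 1 + M) = a.2 (i + (M + 1))
      rw [show i + 1 + M = i + (M + 1) by ring]

lemma tm_iter2 (hZm : ∀ k, ∀ z ∈ Z k, (fun n => z (n - 1)) ∈ Z k) {a : St W}
    (ha : a ∈ YZ s Z ω) (M : ℕ) : ∃ a' ∈ YZ s Z ω,
    (∀ n, a'.1 n = a.1 (n - M)) ∧ a'.2 = a.2 := by
  induction M with
  | zero => exact ⟨a, ha, fun n => by simp, rfl⟩
  | succ M ih =>
    obtain ⟨a', h1, h2, h3⟩ := ih
    refine ⟨tm a', tm_mem hZm h1, fun n => ?_, h3⟩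
    show a'.1 (n - 1) = _
    rw [h2, show n - 1 - (M : ℤ) = n - ((M + 1 : ℕ) : ℤ) by push_cast; ring]

/-- the case of the full circle: sequences of the form `r (3/2)^i` -/
lemma full (hZm : ∀ k, ∀ z ∈ Z k, (fun n => z (n - 1)) ∈ Z k)
    (hZr : ∀ k, ∀ z ∈ Z k, ∀ n, 2 • z (n + 1) = 3 • z n) {c : ℕ} (hc : 1 ≤ c)
    (hs : s = 2 * c ∨ s = 3 * c) (r : ℝ) (M : ℕ) (u : ℕ → W)
    (hu : FibZ s Z ω u = univ) : ∃ a ∈ YZ s Z ω, (∀ i : ℕ, i ≤ M → a.1 i = ((r * (3 / 2) ^ i : ℝ) : Circ)) ∧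
      a.2 = fun i => u (i + M) := by
  have hc0 : (c : ℝ) ≠ 0 := by
    have : (1 : ℝ) ≤ c := by exact_mod_cast hc
    positivity
  rcases hs with hs | hs
  · have h1 : (((r / (s : ℝ) ^ M : ℝ)) : Circ) ∈ FibZ s Z ω u := by rw [hu]; trivial
    obtain ⟨a, ⟨ha, hau⟩, ha0⟩ := h1
    have hau' : a.2 = u := hau
    obtain ⟨a', ha', h2, h22⟩ := sg_iter2 ha M
    refine ⟨a', ha', fun i hi => ?_, by rw [h22, hau']⟩
    have h3 := rel_iter hZr ha 0 i
    rw [zero_add] at h3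
    have e : s ^ M = (c ^ M * 2 ^ (M - i)) * 2 ^ i := by
      rw [mul_assoc, ← pow_add, Nat.sub_add_cancel hi, hs, mul_pow, mul_comm]
    have ha0' : a.1 0 = (((r / (s : ℝ) ^ M : ℝ)) : Circ) := ha0
    rw [h2, e, mul_nsmul', h3, ha0', ← AddCircle.coe_nsmul, ← AddCircle.coe_nsmul]
    congr 1
    rw [nsmul_eq_mul, nsmul_eq_mul, hs]
    push_cast
    have e2 : (2 : ℝ) ^ M = 2 ^ (M - i) * 2 ^ i := by rw [← pow_add, Nat.sub_add_cancel hi]
    rw [mul_pow, e2, div_pow]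
    field_simp
  · have h1 : (((r * (3 / 2) ^ M / (s : ℝ) ^ M : ℝ)) : Circ) ∈ FibZ s Z ω u := by rw [hu]; trivial
    obtain ⟨a0, ⟨ha0, hau⟩, h00⟩ := h1
    have hau' : a0.2 = u := hau
    obtain ⟨a, ha, h01, h02⟩ := tm_iter2 hZm ha0 M
    obtain ⟨a', ha', h2, h22⟩ := sg_iter2 ha M
    refine ⟨a', ha', fun i hi => ?_, by rw [h22, h02, hau']⟩
    have h3 := rel_iter hZr ha i (M - i)
    have e0 : (i : ℤ) + ((M - i : ℕ) : ℤ) = M := by omega
    rw [e0, h01, sub_self] at h3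
    have e : s ^ M = (c ^ M * 3 ^ i) * 3 ^ (M - i) := by
      rw [mul_assoc, ← pow_add, Nat.add_sub_cancel' hi, hs, mul_pow, mul_comm]
    have h00' : a0.1 0 = (((r * (3 / 2) ^ M / (s : ℝ) ^ M : ℝ)) : Circ) := h00
    rw [h2, e, mul_nsmul', ← h3, h00', ← AddCircle.coe_nsmul, ← AddCircle.coe_nsmul]
    congr 1
    rw [nsmul_eq_mul, nsmul_eq_mul, hs]
    push_cast
    have e2 : (2 : ℝ) ^ M = 2 ^ (M - i) * 2 ^ i := by rw [← pow_add, Nat.sub_add_cancel hi]
    rw [mul_pow, div_pow, div_pow, e2]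
    field_simp

/-- a sequence of points near zero is zero -/
lemma eq_zero_of_small (z : ℤ → Circ) (hr : ∀ n, 2 • z (n + 1) = 3 • z n)
    (h : ∀ n, ‖z n‖ < 1 / 5) : z 0 = 0 := by
  choose e he1 he2 _ using fun n => exists_rep (z n)
  have h1 : ∀ n, 2 * e (n + 1) = 3 * e n := by
    intro n
    have h2 := hr n
    rw [← he1, ← he1 n, ← AddCircle.coe_nsmul, ← AddCircle.coe_nsmul] at h2
    have h3 : ((2 • e (n + 1) - 3 • e n : ℝ) : Circ) = 0 := by
      rw [AddCircle.coe_sub, h2, sub_self]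
    rw [AddCircle.coe_eq_zero_iff] at h3
    obtain ⟨m, hm⟩ := h3
    simp only [nsmul_eq_mul, zsmul_eq_mul, mul_one, Nat.cast_ofNat] at hm
    have a1 := h (n + 1)
    have a2 := h n
    rw [← he2] at a1 a2
    have b1 := abs_lt.1 a1
    have b2 := abs_lt.1 a2
    have h4 : |(m : ℝ)| < 1 := by
      rw [hm, abs_lt]
      constructor <;> linarith [b1.1, b1.2, b2.1, b2.2]
    have h5 : m = 0 := by
      have : |m| < 1 := by exact_mod_cast h4
      rwa [Int.abs_lt_one_iff] at this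
    rw [h5] at hm
    push_cast at hm
    linarith
  have h2 : ∀ i : ℕ, e i = (3 / 2) ^ i * e 0 := by
    intro i
    induction i with
    | zero => simp
    | succ i ih =>
      have := h1 i
      push_cast
      rw [pow_succ]
      linarith [ih, this, (by ring : (3 / 2 : ℝ) ^ i * (3 / 2) * e 0 = (3 / 2) * ((3 / 2) ^ i * e 0))]
  have h3 : e 0 = 0 := by
    by_contra hne
    have hpos : 0 < |e 0| := abs_pos.2 hne
    obtain ⟨i, hi⟩ := pow_unbounded_of_one_lt (1 / |e 0|) (by norm_num : (1 : ℝ) < 3 / 2)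
    have h4 := h i
    rw [← he2, h2 i, abs_mul, abs_of_pos (by positivity)] at h4
    rw [div_lt_iff₀ hpos] at hi
    linarith
  rw [← he1, h3]
  simp

/-- a finite fibre consisting of torsion points is impossible -/
lemma not_finite (hZp : ∀ k, ∀ z ∈ Z k, (fun n => z (n + 1)) ∈ Z k)
    (hZm : ∀ k, ∀ z ∈ Z k, (fun n => z (n - 1)) ∈ Z k)
    (hZr : ∀ k, ∀ z ∈ Z k, ∀ n, 2 • z (n + 1) = 3 • z n) (hs1 : 1 ≤ s)
    (hinf : ∀ k, {x | ∃ z ∈ Z k, z 0 = x}.Infinite) {a0 : St W} (ha0 : a0 ∈ YZ s Z ω)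
    (hfin : (FibZ s Z ω a0.2).Finite) (htor : ∀ x ∈ FibZ s Z ω a0.2, IsOfFinAddOrder x) : False := by
  -- common order
  obtain ⟨b, hb1, hb2⟩ : ∃ b : ℕ, 1 ≤ b ∧ ∀ x ∈ FibZ s Z ω a0.2, b • x = 0 := by
    have h1 : ∀ x ∈ FibZ s Z ω a0.2, ∃ b : ℕ, 1 ≤ b ∧ b • x = 0 := by
      intro x hx
      obtain ⟨n, hn, hn0⟩ := isOfFinAddOrder_iff_nsmul_eq_zero.1 (htor x hx)
      exact ⟨n, hn, hn0⟩
    choose! b hb1 hb2 using h1
    refine ⟨∏ x ∈ hfin.toFinset, b x, ?_, ?_⟩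
    · exact Finset.prod_pos fun x hx => Nat.lt_of_lt_of_le Nat.zero_lt_one (hb1 x (hfin.mem_toFinset.1 hx))
    · intro x hx
      obtain ⟨d, hd⟩ := Finset.dvd_prod_of_mem b (hfin.mem_toFinset.2 hx)
      rw [hd, mul_comm, mul_nsmul', hb2 x hx, nsmul_zero]
  -- neighbourhoods of the sequence of letters
  set C : Set (St W) := {a : St W | 1 / 5 ≤ ‖b • a.1 0‖} with hCdef
  have hC : IsClosed C := isClosed_le (by fun_prop) (by fun_prop)
  set N : ℕ → Set (St W) := fun m => {a : St W | ∀ i, i < m → a.2 i = a0.2 i} with hN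
  have hNcl : ∀ m, IsClosed (N m) := by
    intro m
    have : N m = ⋂ i, ⋂ (_ : i < m), {a : St W | a.2 i = a0.2 i} := by ext a; simp [hN]
    rw [this]
    exact isClosed_iInter fun i => isClosed_iInter fun _ => isClosed_eq (by fun_prop) (by fun_prop)
  have hNop : ∀ m, IsOpen (N m) := by
    intro m
    have : N m = ⋂ i ∈ Finset.range m, {a : St W | a.2 i = a0.2 i} := by
      ext a; simp [hN]
    rw [this]
    refine isOpen_biInter_finset fun i _ => ?_
    exact (isOpen_discrete {a0.2 i}).preimage (f := fun a : St W => a.2 i) (by fun_prop)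
  have hNanti : ∀ m, N (m + 1) ⊆ N m := fun m a ha i hi => ha i (by omega)
  obtain ⟨m, hm⟩ : ∃ m, ¬ (EZ s Z ω m ∩ (N m ∩ C)).Nonempty := by
    by_contra hcon
    push Not at hcon
    have h1 : (⋂ m, closure (EZ s Z ω m ∩ (N m ∩ C))).Nonempty := by
      apply IsCompact.nonempty_iInter_of_sequence_nonempty_isCompact_isClosed
      · intro m
        exact closure_mono (inter_subset_inter (EZ_anti (Nat.le_succ m))
          (inter_subset_inter (hNanti m) Subset.rfl))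
      · intro m
        exact (hcon m).closure
      · exact isClosed_closure.isCompact
      · intro m
        exact isClosed_closure
    obtain ⟨a, ha⟩ := h1
    rw [mem_iInter] at ha
    have haY : a ∈ YZ s Z ω := by
      rw [YZ, mem_iInter]
      exact fun m => closure_mono inter_subset_left (ha m)
    have haN : ∀ m, a ∈ N m := fun m =>
      closure_minimal (inter_subset_right.trans inter_subset_left) (hNcl m) (ha m)
    have haC : a ∈ C := closure_minimal (inter_subset_right.trans inter_subset_right) hC (ha 0)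
    have h2 : a.2 = a0.2 := funext fun i => haN (i + 1) i (Nat.lt_succ_self i)
    have h3 : b • a.1 0 = 0 := hb2 _ ⟨a, ⟨haY, h2⟩, rfl⟩
    rw [hCdef, mem_ofPred_eq, h3, norm_zero] at haC
    norm_num at haC
  -- a point near `a0`
  have h1 : a0 ∈ closure (EZ s Z ω m) := mem_iInter.1 ha0 m
  obtain ⟨a, ⟨haN, k, j, e1, z, hz, rfl⟩⟩ := mem_closure_iff.1 h1 (N m) (hNop m) (fun i _ => rfl)
  have h2 : ∀ z' ∈ Z k, ‖b • (s ^ j • z' 0)‖ < 1 / 5 := by
    intro z' hz'
    by_contra h5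
    apply hm
    refine ⟨(fun n => s ^ j • z' n, fun i => ω k (i + j)), ⟨k, j, e1, z', hz', rfl⟩,
      fun i hi => haN i hi, ?_⟩
    rw [hCdef, mem_ofPred_eq]
    exact not_lt.1 h5
  have h3 : ∀ z' ∈ Z k, b • (s ^ j • z' 0) = 0 := by
    intro z' hz'
    refine eq_zero_of_small (fun n => b • (s ^ j • z' n)) ?_ ?_
    · intro n
      have e1 : ∀ (t : ℕ) (x : Circ), t • (b • (s ^ j • x)) = b • (s ^ j • (t • x)) := by
        intro t x
        rw [← mul_nsmul', ← mul_nsmul', ← mul_nsmul', ← mul_nsmul']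
        congr 1
        ring
      rw [e1, e1, hZr k z' hz' n]
    · intro n
      have h4 := h2 _ (shift_mem hZp hZm k hz' n)
      simp only [zero_add] at h4
      exact h4
  apply hinf k
  have hpos : 0 < b * s ^ j := Nat.mul_pos hb1 (pow_pos hs1 j)
  have hfin2 : {x : Circ | (b * s ^ j) • x = 0}.Finite := by
    refine AddCircle.finite_torsion_of_isSMulRegular (1 : ℝ) (b * s ^ j) ?_
    intro x y hxy
    simp only [nsmul_eq_mul] at hxy
    have : ((b * s ^ j : ℕ) : ℝ) ≠ 0 := by exact_mod_cast hpos.ne'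
    exact mul_left_cancel₀ this hxy
  refine hfin2.subset ?_
  rintro x ⟨z', hz', rfl⟩
  show (b * s ^ j) • z' 0 = 0
  rw [mul_nsmul']
  exact h3 z' hz'

section
variable {V : Type} [TopologicalSpace V] [DiscreteTopology V] [Finite V]
variable {s : ℕ} {Z : ℕ → Set (ℤ → Circ)} {ω : ℕ → ℕ → V}

open Classical in
theorem stat (HS : S_STA) (hZp : ∀ k, ∀ z ∈ Z k, (fun n => z (n + 1)) ∈ Z k)
    (hZm : ∀ k, ∀ z ∈ Z k, (fun n => z (n - 1)) ∈ Z k)
    (hZr : ∀ k, ∀ z ∈ Z k, ∀ n, 2 • z (n + 1) = 3 • z n)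
    (hinf : ∀ k, {x | ∃ z ∈ Z k, z 0 = x}.Infinite) {c : ℕ} (hc : 1 ≤ c)
    (hs : s = 2 * c ∨ s = 3 * c) (v0 : V) (ε : ℝ) (hε : 0 < ε)
    (hd : ∀ k : ℕ, ε * (k + 1) ≤ (((Finset.range (k + 1)).filter (fun j => ω k j ≠ v0)).card : ℝ)) (M : ℕ) :
    ∃ u : ℕ → V, FibZ s Z ω u = univ ∧ u M ≠ v0 := by
  have hne : ∀ k, (Z k).Nonempty := by
    intro k
    obtain ⟨x, z, hz, -⟩ := (hinf k).nonempty
    exact ⟨z, hz⟩
  let _ : MeasurableSpace (ℕ → V) := borel (ℕ → V)
  have _ : BorelSpace (ℕ → V) := ⟨rfl⟩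
  let _ : MetricSpace (ℕ → V) := TopologicalSpace.metrizableSpaceMetric (ℕ → V)
  obtain ⟨P, hP, hPi, hPG⟩ := Pool.Agent.W765.KB.kb2 (X := ℕ → V) continuous_sh ω (fun _ => 0)
    (fun k => k + 1) (tendsto_add_atTop_nat 1) (fun k => Nat.succ_pos k)
  -- the bad letters
  have hG : IsOpen {u : ℕ → V | u 0 = v0} :=
    (isOpen_discrete {v0}).preimage (f := fun u : ℕ → V => u 0) (by fun_prop)
  have hPbad : P {u : ℕ → V | u 0 = v0} ≤ ENNReal.ofReal (1 - ε) := by
    refine hPG _ hG _ (Eventually.of_forall fun k => ?_)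
    rw [Pool.Agent.W765.KB.emp_apply hG.measurableSet]
    have h1 : ((Finset.range (k + 1)).filter (fun i => sh^[0 + i] (ω k) ∈ {u : ℕ → V | u 0 = v0})) =
        (Finset.range (k + 1)).filter (fun i => ¬ (ω k i ≠ v0)) := by
      refine Finset.filter_congr fun i _ => ?_
      rw [mem_ofPred_eq, sh_iter, not_not]
      simp
    rw [h1]
    have h2 := Finset.card_filter_add_card_filter_not (s := Finset.range (k + 1)) (fun i => ω k i ≠ v0)
    rw [Finset.card_range] at h2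
    have h3 := hd k
    have h4 : ((((Finset.range (k + 1)).filter (fun i => ¬ (ω k i ≠ v0))).card : ℕ) : ℝ) ≤ (1 - ε) * (k + 1) := by
      have h5 : ((((Finset.range (k + 1)).filter (fun i => ω k i ≠ v0)).card : ℕ) : ℝ) +
          ((((Finset.range (k + 1)).filter (fun i => ¬ (ω k i ≠ v0))).card : ℕ) : ℝ) = k + 1 := by
        exact_mod_cast h2
      linarith
    have h6 : (0 : ℝ) < k + 1 := by positivity
    rw [← ENNReal.div_eq_inv_mul]
    refine ENNReal.div_le_of_le_mul ?_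
    rw [← ENNReal.ofReal_natCast, ← ENNReal.ofReal_natCast (k + 1), ← ENNReal.ofReal_mul']
    · exact ENNReal.ofReal_le_ofReal (by push_cast at h4 ⊢; exact h4)
    · positivity
  have hPbad' : 0 < P {u : ℕ → V | u 0 ≠ v0} := by
    have h1 : {u : ℕ → V | u 0 ≠ v0} = {u : ℕ → V | u 0 = v0}ᶜ := rfl
    rw [h1, prob_compl_eq_one_sub hG.measurableSet]
    rw [tsub_pos_iff_lt]
    refine hPbad.trans_lt ?_
    rw [ENNReal.ofReal_lt_one]
    linarith
  -- the support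
  set S : Set (ℕ → V) := (fun a : St V => a.2) '' (YZ s Z ω) with hS
  have hSc : IsClosed S := (isClosed_YZ.isCompact.image continuous_snd).isClosed
  have hSn : S.Nonempty := (YZ_nonempty hne).image _
  have hPS0 : ∀ n : ℕ, P {u | 1 / ((n : ℝ) + 1) < Metric.infDist u S} = 0 := by
    intro n
    have hGo : IsOpen {u | 1 / ((n : ℝ) + 1) < Metric.infDist u S} :=
      isOpen_lt continuous_const (Metric.continuous_infDist_pt S)
    have hD : IsClosed {a : St V | 1 / ((n : ℝ) + 1) ≤ Metric.infDist a.2 S} :=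
      isClosed_le continuous_const ((Metric.continuous_infDist_pt S).comp continuous_snd)
    obtain ⟨m, hm⟩ : ∃ m, ¬ (EZ s Z ω m ∩ {a : St V | 1 / ((n : ℝ) + 1) ≤ Metric.infDist a.2 S}).Nonempty := by
      by_contra hcon
      push Not at hcon
      obtain ⟨a, ha, ha2⟩ := YZ_inter hD hcon
      have h1 : Metric.infDist a.2 S = 0 := Metric.infDist_zero_of_mem ⟨a, ha, rfl⟩
      rw [mem_ofPred_eq, h1] at ha2
      have : (0 : ℝ) < 1 / ((n : ℝ) + 1) := by positivity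
      linarith
    refine le_antisymm (ENNReal.le_of_forall_pos_le_add ?_) zero_le
    intro δ hδ _
    rw [zero_add]
    refine hPG _ hGo _ ?_
    have hlim : Tendsto (fun k : ℕ => ((m : ℝ)) / ((k : ℝ) + 1)) atTop (𝓝 0) := by
      have := (tendsto_const_div_atTop_nhds_zero_nat (m : ℝ)).comp (tendsto_add_atTop_nat 1)
      refine this.congr fun k => ?_
      simp
    filter_upwards [eventually_ge_atTop (2 * m), hlim.eventually_le_const (show (0 : ℝ) < δ by exact_mod_cast hδ)]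
      with k hk1 hk2
    rw [Pool.Agent.W765.KB.emp_apply hGo.measurableSet]
    have h1 : ((Finset.range (k + 1)).filter (fun i => sh^[0 + i] (ω k) ∈
        {u | 1 / ((n : ℝ) + 1) < Metric.infDist u S})) ⊆ Finset.Ico (k + 1 - m) (k + 1) := by
      intro i hi
      rw [Finset.mem_filter, Finset.mem_range, mem_ofPred_eq, sh_iter, zero_add] at hi
      rw [Finset.mem_Ico]
      refine ⟨?_, hi.1⟩
      by_contra hlt
      apply hm
      obtain ⟨z, hz⟩ := hne k
      refine ⟨(fun n => s ^ i • z n, fun l => ω k (l + i)), ⟨k, i, by omega, z, hz, rfl⟩, ?_⟩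
      exact hi.2.le
    have h2 := Finset.card_le_card h1
    rw [Nat.card_Ico] at h2
    have h3 : ((Finset.range (k + 1)).filter (fun i => sh^[0 + i] (ω k) ∈
        {u | 1 / ((n : ℝ) + 1) < Metric.infDist u S})).card ≤ m := h2.trans (by omega)
    rw [← ENNReal.div_eq_inv_mul]
    refine ENNReal.div_le_of_le_mul ?_
    have h4 : (m : ℝ) ≤ δ * (k + 1) := by
      rwa [div_le_iff₀ (by positivity)] at hk2
    calc ((((Finset.range (k + 1)).filter (fun i => sh^[0 + i] (ω k) ∈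
        {u | 1 / ((n : ℝ) + 1) < Metric.infDist u S})).card : ℕ) : ENNReal) ≤ (m : ENNReal) := by exact_mod_cast h3
      _ = ENNReal.ofReal m := by rw [ENNReal.ofReal_natCast]
      _ ≤ ENNReal.ofReal (δ * (k + 1)) := ENNReal.ofReal_le_ofReal h4
      _ = (δ : ENNReal) * ((k + 1 : ℕ) : ENNReal) := by
        rw [ENNReal.ofReal_mul (by positivity), ENNReal.ofReal_coe_nnreal, ← ENNReal.ofReal_natCast]
        push_cast
        rfl
  have hPS : ∀ᵐ u ∂P, u ∈ S := by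
    rw [ae_iff]
    refine measure_mono_null (t := ⋃ n : ℕ, {u | 1 / ((n : ℝ) + 1) < Metric.infDist u S}) ?_
      (measure_iUnion_null hPS0)
    intro u hu
    have h1 : 0 < Metric.infDist u S := (hSc.notMem_iff_infDist_pos hSn).1 hu
    obtain ⟨n, hn⟩ := exists_nat_one_div_lt h1
    exact mem_iUnion.2 ⟨n, hn⟩
  -- finite or everything
  have hind : MulIndep (3 * c) (2 * c) :=
    mulIndep_of_irrational (by omega) (by omega) (irr c hc)
  have h1 := HS (ℕ → V) P sh hPi (3 * c) (2 * c) (by omega) (by omega) hind (FibZ s Z ω)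
    (fun u => isClosed_Fib u) hit_Fib (fun u x hx => (Fib_equi hZp hZm hZr hs u x hx).1)
    (fun u x hx => (Fib_equi hZp hZm hZr hs u x hx).2)
  have h2 := fin_torsion hPi (by omega : 2 ≤ 3 * c) (by omega : 2 ≤ 2 * c) hind
    (fun u => isClosed_Fib (s := s) (Z := Z) (ω := ω) u) hit_Fib
    (fun u x hx => (Fib_equi hZp hZm hZr hs u x hx).1)
    (fun u x hx => (Fib_equi hZp hZm hZr hs u x hx).2)
  have h3 : ∀ᵐ u ∂P, FibZ s Z ω u = univ := by
    filter_upwards [h1, h2, hPS] with u k1 k2 k3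
    rcases k1 with k1 | k1
    · exfalso
      obtain ⟨a0, ha0, rfl⟩ := k3
      exact not_finite hZp hZm hZr (by omega) hinf ha0 k1 (k2 k1)
    · exact k1
  have h4 : 0 < P ((sh^[M]) ⁻¹' {u : ℕ → V | u 0 ≠ v0}) := by
    have h0 : MeasurableSet {u : ℕ → V | u 0 ≠ v0} := hG.measurableSet.compl
    rw [(hPi.iterate M).measure_preimage h0.nullMeasurableSet]
    exact hPbad'
  have h5 : ∃ᵐ u ∂P, u ∈ (sh^[M]) ⁻¹' {u : ℕ → V | u 0 ≠ v0} := by
    rw [frequently_ae_mem_iff]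
    exact h4.ne'
  obtain ⟨u, hu1, hu2⟩ := (h5.and_eventually h3).exists
  refine ⟨u, hu2, ?_⟩
  have h6 : (sh^[M] u) 0 ≠ v0 := hu1
  rw [sh_iter] at h6
  simpa using h6

end

open Classical in
/-- **(S1)** -/
theorem sets (HS : S_STA) : S_SETS := by
  intro W _ U hU hne s c hc hs ε hε
  let _ : TopologicalSpace (Option W) := ⊥
  have _ : DiscreteTopology (Option W) := ⟨rfl⟩
  by_contra hcon
  push Not at hcon
  have hcon' := fun k : ℕ => hcon (k + 1) (Nat.succ_pos k)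
  choose Z hZr hZpm hinf hbad using hcon'
  have hZp : ∀ k, ∀ z ∈ Z k, (fun n => z (n + 1)) ∈ Z k := fun k z hz => (hZpm k z hz).1
  have hZm : ∀ k, ∀ z ∈ Z k, (fun n => z (n - 1)) ∈ Z k := fun k z hz => (hZpm k z hz).2
  set ω : ℕ → ℕ → Option W := fun k j =>
    if h : ∃ w, ∀ z ∈ Z k, s ^ j • z 0 ∉ U w then some h.choose else none with hω
  set U' : Option W → Set Circ := fun v => match v with
    | none => ∅
    | some w => U w with hU'
  have hU'o : ∀ v, IsOpen (U' v) := by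
    intro v
    cases v with
    | none => exact isOpen_empty
    | some w => exact hU w
  have hbad' : ∀ k j : ℕ, j ≤ k → ∀ z ∈ Z k, s ^ j • z 0 ∉ U' (ω k j) := by
    intro k j _ z hz
    by_cases h : ∃ w, ∀ z ∈ Z k, s ^ j • z 0 ∉ U w
    · have e : ω k j = some h.choose := by simp only [hω]; rw [dif_pos h]
      rw [e]
      exact h.choose_spec z hz
    · have e : ω k j = none := by simp only [hω]; rw [dif_neg h]
      rw [e]
      exact notMem_empty _
  have hdens : ∀ k : ℕ, ε * (k + 1) ≤ (((Finset.range (k + 1)).filter (fun j => ω k j ≠ none)).card : ℝ) := by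
    intro k
    have h1 := (hbad k).le
    have h2 : ((Finset.range (k + 1)).filter (fun j => ω k j ≠ none)) = ((Finset.range (k + 1)).filter
        (fun j => ∃ w, ∀ z ∈ Z k, s ^ j • z 0 ∉ U w)) := by
      refine Finset.filter_congr fun j _ => ?_
      by_cases h : ∃ w, ∀ z ∈ Z k, s ^ j • z 0 ∉ U w
      · have e : ω k j = some h.choose := by simp only [hω]; rw [dif_pos h]
        simp [e, h]
      · have e : ω k j = none := by simp only [hω]; rw [dif_neg h]
        simp [e, h]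
    rw [h2]
    push_cast at h1
    exact h1
  obtain ⟨r, hr⟩ := visits U hU hne
  choose n hn using hr
  obtain ⟨M, hM⟩ := (Set.finite_range n).bddAbove
  have hM' : ∀ w, n w ≤ M := fun w => hM ⟨w, rfl⟩
  obtain ⟨u, hu1, hu2⟩ := stat (ω := ω) HS hZp hZm hZr hinf hc hs (none : Option W) ε hε
    (fun k => by convert hdens k) M
  obtain ⟨a, ha, haM, ha2⟩ := full hZm hZr hc hs r M u hu1
  obtain ⟨w, hw⟩ := Option.ne_none_iff_exists'.1 hu2
  have h1 := avoid hZp hZm hU'o hbad' ha (n w)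
  have h2 : a.2 0 = some w := by rw [ha2]; simpa using hw
  rw [haM _ (hM' w), h2] at h1
  exact h1 (hn w)

end Pool.Agent.Zk85.RS45
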